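import Pool.Agent.BVX.LargeCond2
import Pool.Agent.MT.Reduce
import Pool.Agent.MT.Cheb
import Pool.Agent.MT.Wt

set_option autoImplicit false

/-!
# BVX / Ch1: primes which are one modulo a prime `q`, for almost all primes `q`

`N = 8 R^2 g^8`, `R < q ≤ 8 R`.
-/

namespace Pool.Agent.BVX

open Finset Pool.Agent.MT

/-- the sum over the primitive characters modulo `q` -/
noncomputable def Sq (η : ℝ → ℝ) (N q : ℕ) : ℝ := ∑ χ ∈ prim q, ‖psiChi η N χ‖

lemma Sq_nonneg (η : ℝ → ℝ) (N q : ℕ) : 0 ≤ Sq η N q := sum_nonneg fun _ _ => norm_nonneg _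

theorem ch_exc (η : ℝ → ℝ) (hη : IsWt η) : ∃ C : ℕ, ∀ R g : ℕ, 1 ≤ g → g ≤ R →
    ∑ q ∈ Ioc R (8 * R), Sq η (8 * R ^ 2 * g ^ 8) q ≤
      C * Real.log (8 * R ^ 2 * g ^ 8 : ℕ) ^ C * (((8 * R ^ 2 * g ^ 8 : ℕ) : ℝ) * (R / g)) := by
  obtain ⟨C, hC⟩ := large_cond2 η hη
  refine ⟨57 * C + C, fun R g hg hgR => ?_⟩
  set N : ℕ := 8 * R ^ 2 * g ^ 8 with hN
  have hR : 1 ≤ R := hg.trans hgR
  have hN8 : 8 ≤ N := by
    rw [hN]
    have h1 : 1 ≤ R ^ 2 := Nat.one_le_pow _ _ hR
    have h2 : 1 ≤ g ^ 8 := Nat.one_le_pow _ _ hg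
    calc 8 = 8 * 1 * 1 := by norm_num
      _ ≤ 8 * R ^ 2 * g ^ 8 := by gcongr
  have hU1 : 1 ≤ g ^ 2 := Nat.one_le_pow _ _ hg
  have hUN : g ^ 2 ≤ N := by
    rw [hN]
    calc g ^ 2 = 1 * 1 * g ^ 2 := by ring
      _ ≤ 8 * R ^ 2 * g ^ 8 := by
          refine Nat.mul_le_mul (Nat.mul_le_mul (by norm_num) (Nat.one_le_pow _ _ hR)) ?_
          exact Nat.pow_le_pow_right hg (by norm_num)
  have hR1 : (1 : ℝ) ≤ R := by exact_mod_cast hR
  have hg1 : (1 : ℝ) ≤ g := by exact_mod_cast hg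
  have hgR' : (g : ℝ) ≤ R := by exact_mod_cast hgR
  have hg0 : (0 : ℝ) < g := by linarith
  have hR0 : (0 : ℝ) < R := by linarith
  have hNr : (N : ℝ) = 8 * R ^ 2 * g ^ 8 := by rw [hN]; push_cast; ring
  have hL : 1 ≤ Real.log N := by
    rw [Real.le_log_iff_exp_le (by exact_mod_cast (by omega : 0 < N))]
    have h1 := Real.exp_one_lt_d9
    have h2 : (8 : ℝ) ≤ N := by exact_mod_cast hN8
    linarith
  have hsU : Real.sqrt ((g ^ 2 : ℕ) : ℝ) = g := by
    rw [Nat.cast_pow, Real.sqrt_sq hg0.le]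
  have hsN : Real.sqrt N ≤ 3 * R * g ^ 4 := by
    refine Real.sqrt_le_iff.2 ⟨by positivity, ?_⟩
    rw [hNr]
    have h1 : (0 : ℝ) ≤ R ^ 2 * g ^ 8 := by positivity
    calc 8 * (R : ℝ) ^ 2 * (g : ℝ) ^ 8 ≤ 9 * ((R : ℝ) ^ 2 * (g : ℝ) ^ 8) := by linarith
      _ = (3 * (R : ℝ) * (g : ℝ) ^ 4) ^ 2 := by ring
  set B : ℝ := (N : ℝ) * (R / g) with hB
  have hB' : B = 8 * R ^ 3 * g ^ 7 := by
    rw [hB, hNr]
    field_simp
  have hg47 : (g : ℝ) ^ 4 ≤ g ^ 7 := pow_le_pow_right₀ hg1 (by norm_num)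
  have key : ∀ c : ℕ, 1 ≤ c → c ≤ 4 →
      ∑ q ∈ Ioc (c * R) (2 * (c * R)), Sq η N q ≤ C * Real.log N ^ C * (19 * B) := by
    intro c hc1 hc4
    have h0 := hC N (c * R) (g ^ 2) (by omega) (Nat.mul_pos hc1 hR) hU1 hUN
    refine h0.trans ?_
    refine mul_le_mul_of_nonneg_left ?_ (by positivity)
    have hcr : (c : ℝ) ≤ 4 := by exact_mod_cast hc4
    have hc0 : (0 : ℝ) ≤ c := Nat.cast_nonneg c
    have hcR : ((c * R : ℕ) : ℝ) ≤ 4 * R := by
      push_cast
      exact mul_le_mul_of_nonneg_right hcr hR0.le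
    have hcR0 : (0 : ℝ) ≤ ((c * R : ℕ) : ℝ) := Nat.cast_nonneg _
    rw [hsU]
    have t0 : (N : ℝ) ≤ B := by
      rw [hB]
      have h1 : (1 : ℝ) ≤ R / g := by rw [one_le_div hg0]; exact hgR'
      have h2 : (0 : ℝ) ≤ N := Nat.cast_nonneg N
      nlinarith
    have t1 : ((c * R : ℕ) : ℝ) * N / g ≤ 4 * B := by
      rw [hB]
      calc ((c * R : ℕ) : ℝ) * N / g ≤ (4 * R) * N / g := by gcongr
        _ = 4 * (N * (R / g)) := by ring
    have t2 : ((c * R : ℕ) : ℝ) ^ 2 * Real.sqrt N ≤ 6 * B := by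
      calc ((c * R : ℕ) : ℝ) ^ 2 * Real.sqrt N ≤
            (4 * (R : ℝ)) ^ 2 * (3 * (R : ℝ) * (g : ℝ) ^ 4) := by gcongr
        _ = 48 * (R : ℝ) ^ 3 * (g : ℝ) ^ 4 := by ring
        _ ≤ 48 * (R : ℝ) ^ 3 * (g : ℝ) ^ 7 := by gcongr
        _ = 6 * B := by rw [hB']; ring
    have t3 : ((c * R : ℕ) : ℝ) ^ 3 * ((g ^ 2 : ℕ) : ℝ) ^ 2 ≤ 8 * B := by
      calc ((c * R : ℕ) : ℝ) ^ 3 * ((g ^ 2 : ℕ) : ℝ) ^ 2 ≤
            (4 * (R : ℝ)) ^ 3 * ((g ^ 2 : ℕ) : ℝ) ^ 2 := by
            gcongr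
        _ = 64 * (R : ℝ) ^ 3 * (g : ℝ) ^ 4 := by push_cast; ring
        _ ≤ 64 * (R : ℝ) ^ 3 * (g : ℝ) ^ 7 := by gcongr
        _ = 8 * B := by rw [hB']; ring
    linarith
  have hsplit : ∑ q ∈ Ioc R (8 * R), Sq η N q = ∑ q ∈ Ioc (1 * R) (2 * (1 * R)), Sq η N q +
      ∑ q ∈ Ioc (2 * R) (2 * (2 * R)), Sq η N q + ∑ q ∈ Ioc (4 * R) (2 * (4 * R)), Sq η N q := by
    have e1 : 2 * (1 * R) = 2 * R := by ring
    have e2 : 2 * (2 * R) = 4 * R := by ring
    have e3 : 2 * (4 * R) = 8 * R := by ring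
    rw [e1, e2, e3, one_mul, sum_Ioc_consecutive _ (by omega) (by omega),
      sum_Ioc_consecutive _ (by omega) (by omega)]
  rw [hsplit]
  have k1 := key 1 (by norm_num) (by norm_num)
  have k2 := key 2 (by norm_num) (by norm_num)
  have k4 := key 4 (by norm_num) (by norm_num)
  have hB0 : 0 ≤ B := by rw [hB']; positivity
  have hLC : Real.log N ^ C ≤ Real.log N ^ (57 * C + C) := pow_le_pow_right₀ hL (by omega)
  calc _ ≤ C * Real.log N ^ C * (19 * B) + C * Real.log N ^ C * (19 * B) +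
        C * Real.log N ^ C * (19 * B) := add_le_add (add_le_add k1 k2) k4
    _ = (57 * C) * Real.log N ^ C * B := by ring
    _ ≤ ((57 * C + C : ℕ) : ℝ) * Real.log N ^ (57 * C + C) * B := by
        have h1 : (57 * (C : ℝ)) ≤ ((57 * C + C : ℕ) : ℝ) := by
          push_cast
          have : (0 : ℝ) ≤ C := Nat.cast_nonneg C
          linarith
        gcongr

/-- the primes `p ≡ 1 (mod q)` in `(N/8, N]` -/
def kids (M q : ℕ) : Finset ℕ := (Ioc M (8 * M)).filter fun p => p.Prime ∧ p % q = 1 % q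

theorem ch_kids (η : ℝ → ℝ) (hη : IsWt η) : ∃ C : ℝ, 0 < C ∧ ∃ N₀ : ℕ, ∀ M q : ℕ, N₀ ≤ 8 * M →
    q.Prime → q ≤ 8 * M → Sq η (8 * M) q ≤ ((8 * M : ℕ) : ℝ) / 40 →
    (q : ℝ) * (C * Real.sqrt (8 * M : ℕ) * Real.log (8 * M : ℕ)) ≤ ((8 * M : ℕ) : ℝ) / 40 →
    ((8 * M : ℕ) : ℝ) / (20 * q * Real.log (8 * M : ℕ)) ≤ (kids M q).card := by
  obtain ⟨C, hC, hpow⟩ := pow_part
  obtain ⟨N₀, hN₀⟩ := Filter.eventually_atTop.1 (psi0_lower η hη)
  refine ⟨C + 4, by linarith, max N₀ 8, fun M q hM hq hqN hS hcond => ?_⟩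
  set N : ℕ := 8 * M with hN
  have hN8 : 8 ≤ N := (le_max_right _ _).trans hM
  have hN0 : N₀ ≤ N := (le_max_left _ _).trans hM
  have hp0 := hN₀ N hN0
  have hNpos : (0 : ℝ) < N := by exact_mod_cast (by omega : 0 < N)
  have hqpos : (0 : ℝ) < q := by exact_mod_cast hq.pos
  have hL : 1 ≤ Real.log N := by
    rw [Real.le_log_iff_exp_le hNpos]
    have h1 := Real.exp_one_lt_d9
    have h2 : (8 : ℝ) ≤ N := by exact_mod_cast hN8
    linarith
  have hLs : Real.log N ≤ Real.sqrt N := by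
    have h1 := Real.log_le_sub_one_of_pos (Real.sqrt_pos.2 (Real.sqrt_pos.2 hNpos))
    have h2 : Real.log N = 4 * Real.log (Real.sqrt (Real.sqrt N)) := by
      rw [Real.log_sqrt (Real.sqrt_nonneg _), Real.log_sqrt hNpos.le]
      ring
    have h3 : (Real.sqrt (Real.sqrt N)) ^ 2 = Real.sqrt N := Real.sq_sqrt (Real.sqrt_nonneg _)
    nlinarith [sq_nonneg (Real.sqrt (Real.sqrt N) - 2)]
  -- the lower bound
  have hred := reduce η hη N q 1 (by omega) hq.one_lt.le hqN (Nat.coprime_one_left q)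
  have hdiv : q.divisors.erase 1 = {q} := by
    rw [hq.divisors]
    ext r
    simp only [mem_erase, mem_insert, mem_singleton]
    constructor
    · rintro ⟨h1, h2 | h2⟩
      · exact absurd h2 h1
      · exact h2
    · intro h
      exact ⟨by rw [h]; exact hq.one_lt.ne', Or.inr h⟩
  rw [hdiv, sum_singleton] at hred
  have hφ : (0 : ℝ) < q.totient := by exact_mod_cast Nat.totient_pos.2 hq.pos
  have hφq : (q.totient : ℝ) ≤ q := by exact_mod_cast Nat.totient_le q
  change |psiAP η N q 1 - psi0 η N / (q.totient : ℝ)| ≤ 4 * Real.log N ^ 2 +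
    (1 / (q.totient : ℝ)) * Sq η N q at hred
  have h1 : psi0 η N / (q.totient : ℝ) - 4 * Real.log N ^ 2 - Sq η N q / q.totient ≤
      psiAP η N q 1 := by
    have h2 := (abs_le.1 hred).1
    have h3 : (1 / (q.totient : ℝ)) * Sq η N q = Sq η N q / q.totient := by ring
    rw [h3] at h2
    linarith
  have h2 : 3 * N / (40 * q) ≤ psi0 η N / (q.totient : ℝ) - Sq η N q / q.totient := by
    rw [← sub_div]
    have h3 : 3 * (N : ℝ) / 40 ≤ psi0 η N - Sq η N q := by linarith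
    calc 3 * (N : ℝ) / (40 * q) = (3 * N / 40) / q := by field_simp
      _ ≤ (psi0 η N - Sq η N q) / q := div_le_div_of_nonneg_right h3 hqpos.le
      _ ≤ (psi0 η N - Sq η N q) / q.totient :=
          div_le_div_of_nonneg_left (le_trans (by positivity) h3) hφ hφq
  -- the upper bound
  have h3 : psiAP η N q 1 ≤ C * Real.sqrt N * Real.log N + (kids M q).card * Real.log N := by
    unfold psiAP
    have hsub : ∀ n ∈ (range (N + 1)).filter (fun n => n % q = 1 % q),
        ArithmeticFunction.vonMangoldt n * η ((n : ℝ) / N) ≤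
        (if ¬ n.Prime then ArithmeticFunction.vonMangoldt n else 0) +
          (if n ∈ kids M q then Real.log N else 0) := by
      intro n hn
      rw [mem_filter, mem_range] at hn
      have hv : 0 ≤ ArithmeticFunction.vonMangoldt n := ArithmeticFunction.vonMangoldt_nonneg
      have he0 := hη.nonneg ((n : ℝ) / N)
      have he1 := hη.le_one ((n : ℝ) / N)
      by_cases hpr : n.Prime
      · rw [if_neg (not_not.2 hpr), zero_add]
        by_cases hk : n ∈ kids M q
        · rw [if_pos hk]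
          have h4 : ArithmeticFunction.vonMangoldt n ≤ Real.log N := by
            refine ArithmeticFunction.vonMangoldt_le_log.trans ?_
            exact Real.log_le_log (by exact_mod_cast hpr.pos) (by exact_mod_cast (by omega))
          nlinarith
        · rw [if_neg hk]
          have h5 : η ((n : ℝ) / N) = 0 := by
            by_contra h6
            have h7 := hη.supp _ h6
            have h8 : (N : ℝ) / 8 < n := by
              have := h7.1
              rw [lt_div_iff₀ hNpos] at this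
              linarith
            have h9 : (M : ℝ) < n := by
              rw [hN] at h8
              push_cast at h8
              linarith
            have h10 : M < n := by exact_mod_cast h9
            exact hk (mem_filter.2 ⟨mem_Ioc.2 ⟨h10, by omega⟩, hpr, hn.2⟩)
          rw [h5, mul_zero]
      · rw [if_pos hpr]
        have h4 : 0 ≤ (if n ∈ kids M q then Real.log N else 0) := by
          split_ifs
          · linarith
          · exact le_rfl
        nlinarith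
    refine (sum_le_sum hsub).trans ?_
    rw [sum_add_distrib]
    refine add_le_add ?_ ?_
    · rw [← sum_filter]
      refine le_trans ?_ (hpow N (by omega))
      refine sum_le_sum_of_subset_of_nonneg ?_ fun n _ _ => ArithmeticFunction.vonMangoldt_nonneg
      intro n hn
      rw [mem_filter, mem_filter] at hn
      exact mem_filter.2 ⟨hn.1.1, hn.2⟩
    · rw [← sum_filter, sum_const, nsmul_eq_mul]
      refine mul_le_mul_of_nonneg_right ?_ (by linarith)
      have : ((range (N + 1)).filter (fun n => n % q = 1 % q)).filter (fun n => n ∈ kids M q) ⊆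
          kids M q := fun n hn => (mem_filter.1 hn).2
      exact_mod_cast card_le_card this
  -- combination
  have h4 : 4 * Real.log N ^ 2 ≤ 4 * (Real.sqrt N * Real.log N) := by nlinarith
  have h5 : (C + 4) * Real.sqrt N * Real.log N ≤ N / (40 * q) := by
    rw [le_div_iff₀ (by positivity)]
    nlinarith
  have h6 : (N : ℝ) / (20 * q) ≤ (kids M q).card * Real.log N := by
    have h7 : 3 * (N : ℝ) / (40 * q) = N / (40 * q) + N / (20 * q) := by
      field_simp
      ring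
    nlinarith
  rw [div_le_iff₀ (by positivity)]
  rw [div_le_iff₀ (by positivity)] at h6
  nlinarith

end Pool.Agent.BVX
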