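import Pool.Agent.BVX.Ch1

set_option autoImplicit false

/-!
# BVX / Ch2: the recursion and the compactness argument for chains of primes
-/

namespace Pool.Agent.BVX

open Finset

/-- the primes in `(M, 8M]` -/
def win (M : ℕ) : Finset ℕ := (Ioc M (8 * M)).filter Nat.Prime

/-- `q` starts a chain of length `n` through the windows -/
def good (M : ℕ → ℕ) : ℕ → ℕ → ℕ → Prop
  | 0, _, _ => True
  | (n + 1), i, q => ∃ p ∈ kids (M (i + 1)) q, good M n (i + 1) p

lemma kids_sub (M q : ℕ) : kids M q ⊆ win M := by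
  intro p hp
  obtain ⟨h1, h2, _⟩ := mem_filter.1 hp
  exact mem_filter.2 ⟨h1, h2⟩

lemma good_pred (M : ℕ → ℕ) : ∀ n i q, good M (n + 1) i q → good M n i q := by
  intro n
  induction n with
  | zero => intro i q _; trivial
  | succ n ih =>
    rintro i q ⟨p, hp, h⟩
    exact ⟨p, hp, ih _ _ h⟩

lemma good_anti (M : ℕ → ℕ) {m n : ℕ} (hmn : m ≤ n) (i q : ℕ) (h : good M n i q) :
    good M m i q := by
  induction n, hmn using Nat.le_induction with
  | base => exact h
  | succ n _ ih => exact ih (good_pred M n i q h)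

open Classical in
/-- the primes of the window which are not `n`-good -/
noncomputable def bad (M : ℕ → ℕ) (n i : ℕ) : Finset ℕ := (win (M i)).filter fun q => ¬ good M n i q

lemma parents {M M' p : ℕ} (hM : 8 * M' ≤ M ^ 3) (hp : p ∈ win M') (B : Finset ℕ)
    (hB : B ⊆ win M) : (B.filter fun q => p % q = 1 % q).card ≤ 2 := by
  by_contra h
  rw [not_le] at h
  obtain ⟨T, hT, hT3⟩ := exists_subset_card_eq (show 3 ≤ _ from h)
  have hpos : 0 < p - 1 := by
    have := (mem_filter.1 hp).2.one_lt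
    omega
  have hdvd : ∀ q ∈ T, q ∣ p - 1 := by
    intro q hq
    have h1 := (mem_filter.1 (hT hq)).2
    have h2 := (mem_filter.1 (hB (mem_filter.1 (hT hq)).1)).2
    have h3 : 1 % q = 1 := Nat.mod_eq_of_lt h2.one_lt
    rw [h3] at h1
    exact (Nat.modEq_iff_dvd' (by omega)).1 (show 1 ≡ p [MOD q] by
      unfold Nat.ModEq
      rw [h1, h3])
  have hprod : ∏ q ∈ T, q ∣ p - 1 := by
    refine prod_primes_dvd _ ?_ hdvd
    intro q hq
    exact ((mem_filter.1 (hB (mem_filter.1 (hT hq)).1)).2).prime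
  have h1 : M ^ 3 ≤ ∏ q ∈ T, q := by
    rw [← hT3]
    refine pow_card_le_prod T (fun q => q) M fun q hq => ?_
    exact (mem_Ioc.1 (mem_filter.1 (hB (mem_filter.1 (hT hq)).1)).1).1.le
  have h2 := Nat.le_of_dvd hpos hprod
  have h3 := (mem_Ioc.1 (mem_filter.1 hp).1).2
  omega

lemma bad_rec (M : ℕ → ℕ) (i n : ℕ) (hM : 8 * M (i + 1) ≤ M i ^ 3) (E : Finset ℕ) (m : ℝ)
    (hm : 0 ≤ m) (hE : ∀ q ∈ win (M i), q ∉ E → m ≤ ((kids (M (i + 1)) q).card : ℝ)) :
    m * (((bad M (n + 1) i).card : ℝ) - E.card) ≤ 2 * (bad M n (i + 1)).card := by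
  classical
  set B := bad M (n + 1) i \ E with hB
  set P := bad M n (i + 1) with hP
  have hcard : ((bad M (n + 1) i).card : ℝ) - E.card ≤ B.card := by
    have h2 : (bad M (n + 1) i).card ≤ B.card + E.card := card_le_card_sdiff_add_card
    have h3 : ((bad M (n + 1) i).card : ℝ) ≤ B.card + E.card := by exact_mod_cast h2
    linarith
  have hBw : B ⊆ win (M i) := fun q hq => (mem_filter.1 (mem_sdiff.1 hq).1).1
  have h1 : ∀ q ∈ B, m ≤ ((P.filter fun p => p % q = 1 % q).card : ℝ) := by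
    intro q hq
    have hq1 := mem_filter.1 (mem_sdiff.1 hq).1
    refine (hE q hq1.1 (mem_sdiff.1 hq).2).trans ?_
    have hsub : kids (M (i + 1)) q ⊆ P.filter fun p => p % q = 1 % q := by
      intro p hp
      refine mem_filter.2 ⟨mem_filter.2 ⟨kids_sub _ _ hp, fun hg => hq1.2 ⟨p, hp, hg⟩⟩, ?_⟩
      exact (mem_filter.1 hp).2.2
    exact_mod_cast card_le_card hsub
  have h2 : ∑ q ∈ B, ((P.filter fun p => p % q = 1 % q).card : ℝ) =
      ∑ p ∈ P, ((B.filter fun q => p % q = 1 % q).card : ℝ) := by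
    have e1 : ∀ q, ((P.filter fun p => p % q = 1 % q).card : ℝ) =
        ∑ p ∈ P, if p % q = 1 % q then (1 : ℝ) else 0 := fun q => by
      rw [sum_boole]
    have e2 : ∀ p, ((B.filter fun q => p % q = 1 % q).card : ℝ) =
        ∑ q ∈ B, if p % q = 1 % q then (1 : ℝ) else 0 := fun p => by
      rw [sum_boole]
    simp only [e1, e2]
    exact sum_comm
  have h3 : ∀ p ∈ P, ((B.filter fun q => p % q = 1 % q).card : ℝ) ≤ 2 := by
    intro p hp
    exact_mod_cast parents hM (mem_filter.1 hp).1 B hBw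
  calc m * (((bad M (n + 1) i).card : ℝ) - E.card) ≤ m * B.card :=
        mul_le_mul_of_nonneg_left hcard hm
    _ = ∑ _q ∈ B, m := by rw [sum_const, nsmul_eq_mul, mul_comm]
    _ ≤ ∑ q ∈ B, ((P.filter fun p => p % q = 1 % q).card : ℝ) := sum_le_sum h1
    _ = ∑ p ∈ P, ((B.filter fun q => p % q = 1 % q).card : ℝ) := h2
    _ ≤ ∑ _p ∈ P, (2 : ℝ) := sum_le_sum h3
    _ = 2 * P.card := by rw [sum_const, nsmul_eq_mul, mul_comm]

theorem bad_le (M : ℕ → ℕ) (E : ℕ → Finset ℕ) (m t : ℕ → ℝ)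
    (hM : ∀ i, 8 * M (i + 1) ≤ M i ^ 3) (hm : ∀ i, 0 < m i) (ht : ∀ i, 0 ≤ t i)
    (hE : ∀ i, ∀ q ∈ win (M i), q ∉ E i → m i ≤ ((kids (M (i + 1)) q).card : ℝ))
    (hrec : ∀ i, ((E i).card : ℝ) + 2 * t (i + 1) / m i ≤ t i) :
    ∀ n i, ((bad M n i).card : ℝ) ≤ t i := by
  classical
  intro n
  induction n with
  | zero =>
    intro i
    have h1 : bad M 0 i = ∅ := by
      unfold bad
      refine filter_eq_empty_iff.2 fun q _ h => h trivial
    rw [h1]
    simpa using ht i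
  | succ n ih =>
    intro i
    have h1 := bad_rec M i n (hM i) (E i) (m i) (hm i).le (hE i)
    have h2 := ih (i + 1)
    have h3 : ((bad M (n + 1) i).card : ℝ) - (E i).card ≤ 2 * t (i + 1) / m i := by
      rw [le_div_iff₀ (hm i)]
      linarith
    linarith [hrec i]

open Classical in
/-- the primes which start an infinite chain through the windows -/
noncomputable def om (M : ℕ → ℕ) (i : ℕ) : Finset ℕ := (win (M i)).filter fun q => ∀ n, good M n i q

lemma om_bad (M : ℕ → ℕ) (i : ℕ) : ∃ n, win (M i) \ om M i ⊆ bad M n i := by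
  classical
  have h1 : ∀ q, ∃ n, q ∈ win (M i) \ om M i → ¬ good M n i q := by
    intro q
    by_cases hq : q ∈ win (M i) \ om M i
    · obtain ⟨h2, h3⟩ := mem_sdiff.1 hq
      have h4 : ¬ ∀ n, good M n i q := fun h => h3 (mem_filter.2 ⟨h2, h⟩)
      push Not at h4
      obtain ⟨n, hn⟩ := h4
      exact ⟨n, fun _ => hn⟩
    · exact ⟨0, fun h => absurd h hq⟩
  choose f hf using h1
  refine ⟨(win (M i) \ om M i).sup f, fun q hq => mem_filter.2 ⟨(mem_sdiff.1 hq).1, fun h => ?_⟩⟩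
  exact hf q hq (good_anti M (le_sup hq) i q h)

lemma om_child (M : ℕ → ℕ) (i q : ℕ) (hq : q ∈ om M i) :
    ∃ p ∈ om M (i + 1), p ∈ kids (M (i + 1)) q := by
  classical
  by_contra hno
  push Not at hno
  have h1 : ∀ p, ∃ n, p ∈ kids (M (i + 1)) q → ¬ good M n (i + 1) p := by
    intro p
    by_cases hp : p ∈ kids (M (i + 1)) q
    · have h4 : ¬ ∀ n, good M n (i + 1) p := fun h =>
        hno p (mem_filter.2 ⟨kids_sub _ _ hp, h⟩) hp
      push Not at h4
      obtain ⟨n, hn⟩ := h4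
      exact ⟨n, fun _ => hn⟩
    · exact ⟨0, fun h => absurd h hp⟩
  choose f hf using h1
  have h2 := (mem_filter.1 hq).2 ((kids (M (i + 1)) q).sup f + 1)
  obtain ⟨p, hp, hg⟩ := h2
  exact hf p hp (good_anti M (le_sup hp) (i + 1) p hg)

theorem om_chain (M : ℕ → ℕ) (hM : ∀ i, 8 * M i ≤ M (i + 1)) (q : ℕ) (hq : q ∈ om M 0) :
    ∃ a : ℕ → ℕ, a 0 = q ∧ StrictMono a ∧ (∀ k, (a k).Prime) ∧
      (∀ k, a (k + 1) ≡ 1 [MOD a k]) ∧ ∀ k, M k < a k ∧ a k ≤ 8 * M k := by
  classical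
  choose! f hf1 hf2 using om_child M
  set a : ℕ → ℕ := fun k => Nat.rec q (fun i x => f i x) k with ha
  have h0 : a 0 = q := rfl
  have hs : ∀ k, a (k + 1) = f k (a k) := fun k => rfl
  have hmem : ∀ k, a k ∈ om M k := by
    intro k
    induction k with
    | zero => exact hq
    | succ k ih =>
      rw [hs]
      exact hf1 k (a k) ih
  have hw : ∀ k, a k ∈ win (M k) := fun k => (mem_filter.1 (hmem k)).1
  have hk : ∀ k, a (k + 1) ∈ kids (M (k + 1)) (a k) := fun k => by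
    rw [hs]
    exact hf2 k (a k) (hmem k)
  refine ⟨a, h0, strictMono_nat_of_lt_succ fun k => ?_, fun k => (mem_filter.1 (hw k)).2,
    fun k => (mem_filter.1 (hk k)).2.2, fun k => mem_Ioc.1 (mem_filter.1 (hw k)).1⟩
  have h1 := (mem_Ioc.1 (mem_filter.1 (hw k)).1).2
  have h2 := (mem_Ioc.1 (mem_filter.1 (hw (k + 1))).1).1
  have h3 := hM k
  omega

end Pool.Agent.BVX
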