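import Pool.Agent.BVX.Ch2

set_option autoImplicit false

/-!
# BVX / Ch3: the scales and their growth
-/

namespace Pool.Agent.BVX

open Finset Filter Real

/-- the gain at scale `R` -/
noncomputable def gg (R : ℕ) : ℕ := ⌈exp (√(log R))⌉₊

/-- the next scale -/
noncomputable def nxt (R : ℕ) : ℕ := R ^ 2 * gg R ^ 8

/-- the scales -/
noncomputable def MM (X : ℕ) : ℕ → ℕ
  | 0 => X
  | (k + 1) => nxt (MM X k)

lemma gg_ge (R : ℕ) : exp (√(log R)) ≤ gg R := Nat.le_ceil _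

lemma gg_pos (R : ℕ) : 1 ≤ gg R := by
  have h1 := gg_ge R
  have h2 := exp_pos (√(log R))
  have h3 : (0 : ℝ) < gg R := by linarith
  exact_mod_cast h3

lemma gg_le (R : ℕ) : (gg R : ℝ) ≤ 2 * exp (√(log R)) := by
  have h1 := Nat.ceil_lt_add_one (exp_pos (√(log R))).le
  have h2 : 1 ≤ exp (√(log R)) := one_le_exp (sqrt_nonneg _)
  unfold gg
  linarith

lemma log_gg_le (R : ℕ) : log (gg R) ≤ √(log R) + 1 := by
  have h1 : (0 : ℝ) < gg R := by exact_mod_cast gg_pos R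
  have h2 := log_le_log h1 (gg_le R)
  rw [log_mul (by norm_num) (exp_pos _).ne', log_exp] at h2
  linarith [log_two_lt_d9]

lemma le_log_gg (R : ℕ) : √(log R) ≤ log (gg R) := by
  rw [le_log_iff_exp_le (by exact_mod_cast gg_pos R)]
  exact gg_ge R

lemma nxt_cast (R : ℕ) : (nxt R : ℝ) = (R : ℝ) ^ 2 * (gg R : ℝ) ^ 8 := by
  unfold nxt
  push_cast
  ring

lemma log_nxt {R : ℕ} (hR : 1 ≤ R) : log (nxt R) = 2 * log R + 8 * log (gg R) := by
  have h1 : (0 : ℝ) < R := by exact_mod_cast hR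
  have h2 : (0 : ℝ) < gg R := by exact_mod_cast gg_pos R
  rw [nxt_cast, log_mul (by positivity) (by positivity), log_pow, log_pow]
  norm_num

lemma log_eight : log 8 ≤ 3 := by
  have h1 : log (8 : ℝ) = 3 * log 2 := by
    rw [show (8 : ℝ) = 2 ^ 3 by norm_num, log_pow]
    norm_num
  rw [h1]
  linarith [log_two_lt_d9]

/-- upper bound for the logarithm of `N = 8 nxt R` -/
lemma log_N_le {R : ℕ} (hR : 1 ≤ R) (hx : 6 ≤ √(log R)) :
    log ((8 * nxt R : ℕ) : ℝ) ≤ 4 * √(log R) ^ 2 := by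
  have hlog : 0 ≤ log (R : ℝ) := log_nonneg (by exact_mod_cast hR)
  have h0 : √(log R) ^ 2 = log R := sq_sqrt hlog
  have h1 : (0 : ℝ) < nxt R := by
    have : 0 < nxt R := Nat.mul_pos (by positivity) (by have := gg_pos R; positivity)
    exact_mod_cast this
  rw [Nat.cast_mul, log_mul (by norm_num) h1.ne', log_nxt hR]
  have h2 := log_gg_le R
  have h3 := log_eight
  push_cast
  nlinarith

/-- all the asymptotic conditions at one scale -/
structure Cond (C : ℝ) (D N₀ R : ℕ) : Prop where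
  one : 1 ≤ R
  gle : gg R ≤ R
  cube : 8 * nxt R ≤ R ^ 3
  mono : 8 * R ≤ nxt R
  n0 : N₀ ≤ 8 * nxt R
  logN : 1 ≤ log ((8 * nxt R : ℕ) : ℝ)
  small : 120 * C * log ((8 * nxt R : ℕ) : ℝ) ≤ (gg R : ℝ) ^ 4
  main : 40 * (D * log ((8 * nxt R : ℕ) : ℝ) ^ D) / gg R +
    40 * log ((8 * nxt R : ℕ) : ℝ) * exp (-√(log (nxt R)) / 2) ≤ exp (-√(log R) / 2)
  count : 5 * log ((8 * R : ℕ) : ℝ) < exp (√(log R) / 2)
  n1 : N₀ ≤ 8 * R
  small2 : 2 * (C * √((8 * R : ℕ) : ℝ) * log ((8 * R : ℕ) : ℝ)) ≤ ((8 * R : ℕ) : ℝ) / 40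
  big : 1 ≤ log R

lemma ev_poly (a : ℝ) (n : ℕ) {b : ℝ} (hb : 0 < b) : ∀ᶠ x : ℝ in atTop,
    a * x ^ n ≤ exp (b * x) := by
  have h1 := isLittleO_pow_exp_pos_mul_atTop n hb
  have h2 := h1.const_mul_left a
  filter_upwards [h2.bound one_pos] with x hx
  rw [one_mul, norm_of_nonneg (exp_pos _).le] at hx
  exact (le_abs_self _).trans hx

theorem cond_ev (C : ℝ) (hC : 0 < C) (D N₀ : ℕ) : ∃ X₀ : ℕ, ∀ R : ℕ, X₀ ≤ R → Cond C D N₀ R := by
  have e1 : ∀ᶠ x : ℝ in atTop, 40 * (D * 4 ^ D) * 2 * x ^ (2 * D) ≤ exp (1 / 2 * x) :=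
    ev_poly _ _ (by norm_num)
  have e2 : ∀ᶠ x : ℝ in atTop, 160 * 2 * x ^ 2 ≤ exp (1 / 5 * x) := ev_poly _ _ (by norm_num)
  have e3 : ∀ᶠ x : ℝ in atTop, 480 * C * x ^ 2 ≤ exp (4 * x) := ev_poly _ _ (by norm_num)
  have e4 : ∀ᶠ x : ℝ in atTop, 21 * x ^ 2 ≤ exp (1 / 2 * x) := ev_poly _ _ (by norm_num)
  have e5 : ∀ᶠ x : ℝ in atTop, 10 ≤ x := eventually_ge_atTop 10
  have e6 : ∀ᶠ x : ℝ in atTop, 640 * C * x ^ 2 ≤ exp (1 / 2 * x) := ev_poly _ _ (by norm_num)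
  have htend : Tendsto (fun R : ℕ => √(log (R : ℝ))) atTop atTop :=
    tendsto_sqrt_atTop.comp (tendsto_log_atTop.comp tendsto_natCast_atTop_atTop)
  have ev := htend.eventually (e1.and (e2.and (e3.and (e4.and (e5.and e6)))))
  obtain ⟨X₀, hX₀⟩ := eventually_atTop.1 (ev.and (eventually_ge_atTop (max 8 N₀)))
  refine ⟨X₀, fun R hR => ?_⟩
  obtain ⟨⟨c1, c2, c3, c4, c5, c6⟩, c7⟩ := hX₀ R hR
  have hR8 : 8 ≤ R := (le_max_left _ _).trans c7
  have hRN : N₀ ≤ R := (le_max_right _ _).trans c7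
  have hR1 : 1 ≤ R := by omega
  have hR0 : (0 : ℝ) < R := by exact_mod_cast (by omega : 0 < R)
  have hlog : 0 ≤ log (R : ℝ) := log_nonneg (by exact_mod_cast hR1)
  set x := √(log (R : ℝ)) with hx
  have hx2 : x ^ 2 = log R := sq_sqrt hlog
  have hx0 : 0 ≤ x := sqrt_nonneg _
  have hRx : (R : ℝ) = exp (x ^ 2) := by rw [hx2, exp_log hR0]
  have hg1 := gg_pos R
  have hg0 : (0 : ℝ) < gg R := by exact_mod_cast hg1
  have hgle := gg_le R
  have hgge := gg_ge R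
  rw [← hx] at hgle hgge
  have hlN := log_N_le hR1 (by rw [← hx]; linarith)
  rw [← hx] at hlN
  have hcube : 8 * nxt R ≤ R ^ 3 := by
    have h1 : (8 : ℝ) * (gg R : ℝ) ^ 8 ≤ R := by
      calc (8 : ℝ) * (gg R : ℝ) ^ 8 ≤ 8 * (2 * exp x) ^ 8 := by gcongr
        _ = 2048 * exp (8 * x) := by
            rw [mul_pow, ← exp_nat_mul]
            norm_num
            ring
        _ ≤ exp 20 * exp (8 * x) := by
            refine mul_le_mul_of_nonneg_right ?_ (exp_pos _).le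
            have h2 : (2 : ℝ) ≤ exp 1 := by linarith [exp_one_gt_d9]
            calc (2048 : ℝ) ≤ 2 ^ 20 := by norm_num
              _ ≤ (exp 1) ^ 20 := pow_le_pow_left₀ (by norm_num) h2 20
              _ = exp 20 := by rw [← exp_nat_mul]; norm_num
        _ = exp (20 + 8 * x) := by rw [← exp_add]
        _ ≤ exp (x ^ 2) := exp_le_exp.2 (by nlinarith)
        _ = R := hRx.symm
    have h2 : 8 * gg R ^ 8 ≤ R := by exact_mod_cast h1
    unfold nxt
    calc 8 * (R ^ 2 * gg R ^ 8) = R ^ 2 * (8 * gg R ^ 8) := by ring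
      _ ≤ R ^ 2 * R := Nat.mul_le_mul_left _ h2
      _ = R ^ 3 := by ring
  have hgR : gg R ≤ R := by
    have h1 : 8 * gg R ^ 8 * R ^ 2 ≤ R * R ^ 2 := by
      have := hcube
      unfold nxt at this
      calc 8 * gg R ^ 8 * R ^ 2 = 8 * (R ^ 2 * gg R ^ 8) := by ring
        _ ≤ R ^ 3 := this
        _ = R * R ^ 2 := by ring
    have h2 : 8 * gg R ^ 8 ≤ R := Nat.le_of_mul_le_mul_right h1 (by positivity)
    calc gg R = gg R ^ 1 := (pow_one _).symm
      _ ≤ gg R ^ 8 := Nat.pow_le_pow_right hg1 (by norm_num)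
      _ ≤ 8 * gg R ^ 8 := Nat.le_mul_of_pos_left _ (by norm_num)
      _ ≤ R := h2
  have hmono : 8 * R ≤ nxt R := by
    unfold nxt
    calc 8 * R ≤ R * R := Nat.mul_le_mul_right _ hR8
      _ = R ^ 2 * 1 := by ring
      _ ≤ R ^ 2 * gg R ^ 8 := Nat.mul_le_mul_left _ (Nat.one_le_pow _ _ hg1)
  have hlog8R : log ((8 * R : ℕ) : ℝ) ≤ 2 * x ^ 2 := by
    rw [Nat.cast_mul, log_mul (by norm_num) hR0.ne', ← hx2]
    have := log_eight
    push_cast
    nlinarith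
  have hlog8R0 : 0 ≤ log ((8 * R : ℕ) : ℝ) := log_natCast_nonneg _
  have hlN1 : 1 ≤ log ((8 * nxt R : ℕ) : ℝ) := by
    have h1 : (8 : ℝ) ≤ ((8 * nxt R : ℕ) : ℝ) := by
      have : 8 ≤ 8 * nxt R := by omega
      exact_mod_cast this
    rw [le_log_iff_exp_le (by linarith)]
    linarith [exp_one_lt_d9]
  refine ⟨hR1, hgR, hcube, hmono, by omega, hlN1, ?_, ?_, ?_, by omega, ?_, ?_⟩
  · calc 120 * C * log ((8 * nxt R : ℕ) : ℝ) ≤ 120 * C * (4 * x ^ 2) := by gcongr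
      _ = 480 * C * x ^ 2 := by ring
      _ ≤ exp (4 * x) := c3
      _ = exp x ^ 4 := by rw [← exp_nat_mul]; norm_num
      _ ≤ (gg R : ℝ) ^ 4 := by gcongr
  · have hD : 40 * (D * log ((8 * nxt R : ℕ) : ℝ) ^ D) / gg R ≤ exp (-x / 2) / 2 := by
      have h1 : 40 * (D * log ((8 * nxt R : ℕ) : ℝ) ^ D) ≤ exp (1 / 2 * x) / 2 := by
        calc 40 * (D * log ((8 * nxt R : ℕ) : ℝ) ^ D) ≤ 40 * (D * (4 * x ^ 2) ^ D) := by gcongr
          _ = 40 * (D * 4 ^ D) * 2 * x ^ (2 * D) / 2 := by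
              rw [mul_pow, ← pow_mul]
              ring
          _ ≤ exp (1 / 2 * x) / 2 := by linarith
      rw [div_le_iff₀ hg0]
      refine h1.trans ?_
      have h2 : exp (-x / 2) * exp x = exp (1 / 2 * x) := by
        rw [← exp_add]
        congr 1
        ring
      have h3 : exp (-x / 2) * exp x ≤ exp (-x / 2) * gg R :=
        mul_le_mul_of_nonneg_left hgge (exp_pos _).le
      linarith
    have hE : 40 * log ((8 * nxt R : ℕ) : ℝ) * exp (-√(log (nxt R)) / 2) ≤ exp (-x / 2) / 2 := by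
      have h1 : 7 / 5 * x ≤ √(log (nxt R)) := by
        refine le_sqrt_of_sq_le ?_
        rw [log_nxt hR1, ← hx2]
        have h2 : 0 ≤ log (gg R : ℝ) := log_nonneg (by exact_mod_cast hg1)
        nlinarith [sq_nonneg x]
      have h2 : exp (-√(log (nxt R)) / 2) ≤ exp (-(7 / 10 * x)) := exp_le_exp.2 (by linarith)
      have h3 : 40 * log ((8 * nxt R : ℕ) : ℝ) ≤ exp (1 / 5 * x) / 2 := by
        calc 40 * log ((8 * nxt R : ℕ) : ℝ) ≤ 40 * (4 * x ^ 2) := by gcongr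
          _ = 160 * 2 * x ^ 2 / 2 := by ring
          _ ≤ exp (1 / 5 * x) / 2 := by linarith
      calc 40 * log ((8 * nxt R : ℕ) : ℝ) * exp (-√(log (nxt R)) / 2) ≤
          exp (1 / 5 * x) / 2 * exp (-(7 / 10 * x)) :=
            mul_le_mul h3 h2 (exp_pos _).le (by positivity)
        _ = exp (-x / 2) / 2 := by
            rw [div_mul_eq_mul_div, ← exp_add]
            congr 2
            ring
    linarith
  · calc 5 * log ((8 * R : ℕ) : ℝ) ≤ 5 * (2 * x ^ 2) := by gcongr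
      _ < 21 * x ^ 2 := by nlinarith
      _ ≤ exp (1 / 2 * x) := c4
      _ = exp (x / 2) := by congr 1; ring
  · have h1 : √((8 * R : ℕ) : ℝ) * √((8 * R : ℕ) : ℝ) = ((8 * R : ℕ) : ℝ) :=
      mul_self_sqrt (Nat.cast_nonneg _)
    have h2 : 80 * C * log ((8 * R : ℕ) : ℝ) ≤ √((8 * R : ℕ) : ℝ) := by
      have h3 : exp (1 / 2 * x) ≤ √((8 * R : ℕ) : ℝ) := by
        refine le_sqrt_of_sq_le ?_
        have h4 : exp (1 / 2 * x) ^ 2 = exp x := by
          rw [← exp_nat_mul]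
          congr 1
          push_cast
          ring
        rw [h4]
        have h5 : exp x ≤ R := by
          rw [hRx]
          exact exp_le_exp.2 (by nlinarith)
        push_cast
        linarith
      calc 80 * C * log ((8 * R : ℕ) : ℝ) ≤ 80 * C * (2 * x ^ 2) := by gcongr
        _ ≤ 640 * C * x ^ 2 := by nlinarith [mul_nonneg hC.le (sq_nonneg x)]
        _ ≤ exp (1 / 2 * x) := c6
        _ ≤ _ := h3
    have h3 : 0 ≤ √((8 * R : ℕ) : ℝ) := sqrt_nonneg _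
    nlinarith
  · rw [← hx2]
    nlinarith

lemma MM_ge {C : ℝ} {D N₀ X₀ X : ℕ} (hX₀ : ∀ R : ℕ, X₀ ≤ R → Cond C D N₀ R) (hX : X₀ ≤ X) (k : ℕ) :
    X₀ ≤ MM X k := by
  induction k with
  | zero => exact hX
  | succ k ih =>
    have h1 := (hX₀ _ ih).mono
    have h2 : MM X (k + 1) = nxt (MM X k) := rfl
    omega

/-- growth of the scales -/
lemma MM_growth {C : ℝ} {D N₀ X₀ X : ℕ} (hX₀ : ∀ R : ℕ, X₀ ≤ R → Cond C D N₀ R) (hX : X₀ ≤ X)
    (hbig : 100 ≤ √(log X)) (k : ℕ) :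
    100 ≤ √(log (MM X k)) ∧
      log (MM X k) + 31 * √(log (MM X k)) ≤ 2 ^ k * (log X + 31 * √(log X)) := by
  induction k with
  | zero => exact ⟨hbig, by simp [MM]⟩
  | succ k ih =>
    obtain ⟨h1, h2⟩ := ih
    have hc := hX₀ _ (MM_ge hX₀ hX k)
    set R := MM X k with hR
    have e1 : MM X (k + 1) = nxt R := rfl
    rw [e1, log_nxt hc.one]
    have h3 := log_gg_le R
    have h0 := le_log_gg R
    set y := √(log (R : ℝ)) with hy
    have hlog : 0 ≤ log (R : ℝ) := by linarith [hc.big]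
    have hy2 : y ^ 2 = log R := sq_sqrt hlog
    have h4 : √(2 * log R + 8 * log (gg R)) ≤ 3 / 2 * y := by
      refine sqrt_le_iff.2 ⟨by linarith, ?_⟩
      nlinarith
    refine ⟨?_, ?_⟩
    · refine h1.trans ?_
      rw [hy]
      refine sqrt_le_sqrt ?_
      nlinarith
    · have h5 : 2 ^ (k + 1) * (log (X : ℝ) + 31 * √(log X)) =
          2 * (2 ^ k * (log (X : ℝ) + 31 * √(log X))) := by ring
      rw [h5]
      nlinarith

end Pool.Agent.BVX
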