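import Pool.Agent.BVX.Ch3

set_option autoImplicit false

/-!
# BVX / Ch4: slowly growing chains of primes
-/

namespace Pool.Agent.BVX

open Finset Filter Real Pool.Agent.MT

/-- the exceptional set at scale `R` -/
noncomputable def exc (η : ℝ → ℝ) (R : ℕ) : Finset ℕ :=
  (Ioc R (8 * R)).filter fun q => ((8 * nxt R : ℕ) : ℝ) / 40 < Sq η (8 * nxt R) q

lemma exc_card (η : ℝ → ℝ) {D : ℕ} (hD : ∀ R g : ℕ, 1 ≤ g → g ≤ R →
      ∑ q ∈ Ioc R (8 * R), Sq η (8 * R ^ 2 * g ^ 8) q ≤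
      D * Real.log (8 * R ^ 2 * g ^ 8 : ℕ) ^ D * (((8 * R ^ 2 * g ^ 8 : ℕ) : ℝ) * (R / g)))
    {R : ℕ} (h1 : 1 ≤ R) (hg : gg R ≤ R) :
    ((exc η R).card : ℝ) ≤ 40 * (D * log ((8 * nxt R : ℕ) : ℝ) ^ D) / gg R * R := by
  have h2 := hD R (gg R) (gg_pos R) hg
  have e1 : 8 * R ^ 2 * gg R ^ 8 = 8 * nxt R := by unfold nxt; ring
  rw [e1] at h2
  have hN : (0 : ℝ) < ((8 * nxt R : ℕ) : ℝ) := by
    have h3 : 0 < nxt R := Nat.mul_pos (by positivity) (by have := gg_pos R; positivity)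
    exact_mod_cast (by omega : 0 < 8 * nxt R)
  have h3 : (exc η R).card • (((8 * nxt R : ℕ) : ℝ) / 40) ≤ ∑ q ∈ exc η R, Sq η (8 * nxt R) q :=
    card_nsmul_le_sum _ _ _ fun q hq => (mem_filter.1 hq).2.le
  have h4 : ∑ q ∈ exc η R, Sq η (8 * nxt R) q ≤ ∑ q ∈ Ioc R (8 * R), Sq η (8 * nxt R) q :=
    sum_le_sum_of_subset_of_nonneg (filter_subset _ _) fun q _ _ => Sq_nonneg _ _ _
  rw [nsmul_eq_mul] at h3
  have h5 := (h3.trans h4).trans h2
  have hg0 : (0 : ℝ) < gg R := by exact_mod_cast gg_pos R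
  rw [div_mul_eq_mul_div, le_div_iff₀ hg0]
  have h6 : D * log ((8 * nxt R : ℕ) : ℝ) ^ D * (((8 * nxt R : ℕ) : ℝ) * (R / gg R)) =
      ((8 * nxt R : ℕ) : ℝ) * (D * log ((8 * nxt R : ℕ) : ℝ) ^ D * R / gg R) := by ring
  rw [h6] at h5
  have h7 : ((exc η R).card : ℝ) / 40 ≤ D * log ((8 * nxt R : ℕ) : ℝ) ^ D * R / gg R := by
    refine le_of_mul_le_mul_left ?_ hN
    linarith
  rw [le_div_iff₀ hg0] at h7
  linarith

/-- the target for the number of bad primes -/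
noncomputable def tt (R : ℕ) : ℝ := R * exp (-√(log R) / 2)

theorem main_scales : ∃ X₀ : ℕ, ∀ X : ℕ, X₀ ≤ X →
    (((win X) \ (om (MM X) 0)).card : ℝ) ≤ tt X ∧ tt X < (win X).card ∧
      (∀ i, 8 * MM X i ≤ MM X (i + 1)) ∧ (∀ i, 100 ≤ √(log (MM X i))) ∧
      ∀ k, log (MM X k) + 31 * √(log (MM X k)) ≤ 2 ^ k * (log X + 31 * √(log X)) := by
  classical
  obtain ⟨η, hη⟩ := exists_wt
  obtain ⟨D, hD⟩ := ch_exc η hη
  obtain ⟨C, hC, N₀, hkids⟩ := ch_kids η hη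
  obtain ⟨X₀, hX₀⟩ := cond_ev C hC D N₀
  have htend : Tendsto (fun R : ℕ => √(log (R : ℝ))) atTop atTop :=
    tendsto_sqrt_atTop.comp (tendsto_log_atTop.comp tendsto_natCast_atTop_atTop)
  obtain ⟨X₁, hX₁⟩ := eventually_atTop.1 (htend.eventually (eventually_ge_atTop 100))
  refine ⟨max X₀ X₁, fun X hX => ?_⟩
  have hXX : X₀ ≤ X := (le_max_left _ _).trans hX
  have hbig : 100 ≤ √(log (X : ℝ)) := hX₁ X ((le_max_right _ _).trans hX)
  have hc : ∀ i, Cond C D N₀ (MM X i) := fun i => hX₀ _ (MM_ge hX₀ hXX i)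
  -- the number of children
  have hch : ∀ i, ∀ q ∈ win (MM X i), q ∉ exc η (MM X i) →
      (nxt (MM X i) : ℝ) / (20 * MM X i * log ((8 * nxt (MM X i) : ℕ) : ℝ)) ≤
        ((kids (MM X (i + 1)) q).card : ℝ) := by
    intro i q hq hqe
    have hci := hc i
    set R := MM X i with hR
    have e1 : MM X (i + 1) = nxt R := rfl
    rw [e1]
    obtain ⟨hq1, hq2⟩ := mem_filter.1 hq
    obtain ⟨hq3, hq4⟩ := mem_Ioc.1 hq1
    have hS : Sq η (8 * nxt R) q ≤ ((8 * nxt R : ℕ) : ℝ) / 40 := by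
      by_contra h
      rw [not_le] at h
      exact hqe (mem_filter.2 ⟨hq1, h⟩)
    have hR0 : (0 : ℝ) < R := by exact_mod_cast hci.one
    have hg0 : (0 : ℝ) < gg R := by exact_mod_cast gg_pos R
    have hqR : (q : ℝ) ≤ 8 * R := by exact_mod_cast hq4
    have hL0 : 0 < log ((8 * nxt R : ℕ) : ℝ) := by linarith [hci.logN]
    have hN : ((8 * nxt R : ℕ) : ℝ) = 8 * (R : ℝ) ^ 2 * (gg R : ℝ) ^ 8 := by
      push_cast
      rw [nxt_cast]
      ring
    have hsN : √((8 * nxt R : ℕ) : ℝ) ≤ 3 * (R : ℝ) * (gg R : ℝ) ^ 4 := by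
      refine sqrt_le_iff.2 ⟨by positivity, ?_⟩
      rw [hN]
      have h1 : (0 : ℝ) ≤ (R : ℝ) ^ 2 * (gg R : ℝ) ^ 8 := by positivity
      calc 8 * (R : ℝ) ^ 2 * (gg R : ℝ) ^ 8 ≤ 9 * ((R : ℝ) ^ 2 * (gg R : ℝ) ^ 8) := by linarith
        _ = (3 * (R : ℝ) * (gg R : ℝ) ^ 4) ^ 2 := by ring
    have hcond : (q : ℝ) * (C * √((8 * nxt R : ℕ) : ℝ) * log ((8 * nxt R : ℕ) : ℝ)) ≤
        ((8 * nxt R : ℕ) : ℝ) / 40 := by
      calc (q : ℝ) * (C * √((8 * nxt R : ℕ) : ℝ) * log ((8 * nxt R : ℕ) : ℝ)) ≤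
          (8 * R) * (C * (3 * (R : ℝ) * (gg R : ℝ) ^ 4) * log ((8 * nxt R : ℕ) : ℝ)) := by gcongr
        _ = (R : ℝ) ^ 2 * (gg R : ℝ) ^ 4 / 5 * (120 * C * log ((8 * nxt R : ℕ) : ℝ)) := by ring
        _ ≤ (R : ℝ) ^ 2 * (gg R : ℝ) ^ 4 / 5 * (gg R : ℝ) ^ 4 :=
            mul_le_mul_of_nonneg_left hci.small (by positivity)
        _ = ((8 * nxt R : ℕ) : ℝ) / 40 := by rw [hN]; ring
    have hqN : q ≤ 8 * nxt R := by
      have := hci.mono
      omega
    refine le_trans ?_ (hkids (nxt R) q hci.n0 hq2 hqN hS hcond)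
    have hqpos : (0 : ℝ) < q := by exact_mod_cast hq2.pos
    have hnx : (0 : ℝ) ≤ nxt R := Nat.cast_nonneg _
    rw [div_le_div_iff₀ (by positivity) (by positivity)]
    have h8 : ((8 * nxt R : ℕ) : ℝ) = 8 * (nxt R : ℝ) := by push_cast; ring
    calc (nxt R : ℝ) * (20 * q * log ((8 * nxt R : ℕ) : ℝ)) ≤
        (nxt R : ℝ) * (20 * (8 * R) * log ((8 * nxt R : ℕ) : ℝ)) := by gcongr
      _ = 8 * (nxt R : ℝ) * (20 * R * log ((8 * nxt R : ℕ) : ℝ)) := by ring
      _ = ((8 * nxt R : ℕ) : ℝ) * (20 * R * log ((8 * nxt R : ℕ) : ℝ)) := by rw [h8]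
  have hmpos : ∀ i, 0 < (nxt (MM X i) : ℝ) / (20 * MM X i * log ((8 * nxt (MM X i) : ℕ) : ℝ)) := by
    intro i
    have hci := hc i
    have hR0 : (0 : ℝ) < MM X i := by exact_mod_cast hci.one
    have hL0 : 0 < log ((8 * nxt (MM X i) : ℕ) : ℝ) := by linarith [hci.logN]
    have hn0 : (0 : ℝ) < nxt (MM X i) := by
      have := hci.mono
      have := hci.one
      exact_mod_cast (by omega : 0 < nxt (MM X i))
    positivity
  have hbad := bad_le (MM X) (fun i => exc η (MM X i))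
    (fun i => (nxt (MM X i) : ℝ) / (20 * MM X i * log ((8 * nxt (MM X i) : ℕ) : ℝ)))
    (fun i => tt (MM X i)) (fun i => (hc i).cube) hmpos
    (fun i => by unfold tt; positivity) hch (by
      intro i
      have hci := hc i
      have h1 := exc_card η hD hci.one hci.gle
      have e1 : MM X (i + 1) = nxt (MM X i) := rfl
      simp only [e1]
      set R := MM X i with hR
      have hR0 : (0 : ℝ) < R := by exact_mod_cast hci.one
      have hL0 : 0 < log ((8 * nxt R : ℕ) : ℝ) := by linarith [hci.logN]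
      have hn0 : (0 : ℝ) < nxt R := by
        have := hci.mono
        have := hci.one
        exact_mod_cast (by omega : 0 < nxt R)
      have h2 : 2 * tt (nxt R) / ((nxt R : ℝ) / (20 * R * log ((8 * nxt R : ℕ) : ℝ))) =
          (40 * log ((8 * nxt R : ℕ) : ℝ) * exp (-√(log (nxt R)) / 2)) * R := by
        unfold tt
        field_simp
        ring
      rw [h2]
      calc ((exc η R).card : ℝ) + (40 * log ((8 * nxt R : ℕ) : ℝ) * exp (-√(log (nxt R)) / 2)) * R ≤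
          (40 * (D * log ((8 * nxt R : ℕ) : ℝ) ^ D) / gg R +
            40 * log ((8 * nxt R : ℕ) : ℝ) * exp (-√(log (nxt R)) / 2)) * R := by
              rw [add_mul]
              exact add_le_add_left h1 _
        _ ≤ exp (-√(log R) / 2) * R := mul_le_mul_of_nonneg_right hci.main hR0.le
        _ = tt R := by unfold tt; ring)
  refine ⟨?_, ?_, fun i => (hc i).mono, fun k => (MM_growth hX₀ hXX hbig k).1,
    fun k => (MM_growth hX₀ hXX hbig k).2⟩
  · obtain ⟨n, hn⟩ := om_bad (MM X) 0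
    have h1 := hbad n 0
    have h2 : (((win (MM X 0)) \ (om (MM X) 0)).card : ℝ) ≤ (bad (MM X) n 0).card := by
      exact_mod_cast card_le_card hn
    exact h2.trans h1
  · have hc0 := hc 0
    have hX0' : MM X 0 = X := rfl
    rw [hX0'] at hc0
    have hXp : (0 : ℝ) < X := by exact_mod_cast hc0.one
    have hprim : prim 2 = ∅ := by
      refine eq_empty_of_forall_notMem fun χ h => ((mem_prim χ).1 h).2 ?_
      have : Subsingleton (ZMod 2)ˣ := by
        refine ⟨fun a b => ?_⟩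
        revert a b
        decide
      ext u
      have hu : u = 1 := Subsingleton.elim _ _
      rw [hu]
      simp
    have hS2 : Sq η (8 * X) 2 ≤ ((8 * X : ℕ) : ℝ) / 40 := by
      unfold Sq
      rw [hprim, sum_empty]
      positivity
    have h1 := hkids X 2 hc0.n1 Nat.prime_two (by have := hc0.one; omega) hS2 (by
      have := hc0.small2
      push_cast at this ⊢
      linarith)
    have h2 : ((kids X 2).card : ℝ) ≤ (win X).card := by
      exact_mod_cast card_le_card (kids_sub X 2)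
    refine lt_of_lt_of_le ?_ (h1.trans h2)
    have hlog : 0 < log ((8 * X : ℕ) : ℝ) := by
      refine log_pos ?_
      have : 1 < 8 * X := by have := hc0.one; omega
      exact_mod_cast this
    have h3 := hc0.count
    have h4 : exp (-√(log (X : ℝ)) / 2) = 1 / exp (√(log X) / 2) := by
      rw [neg_div, exp_neg, one_div]
    unfold tt
    rw [h4, mul_one_div, div_lt_div_iff₀ (exp_pos _) (by positivity)]
    push_cast at h3 hlog ⊢
    nlinarith

/-- the chain property -/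
def IsChain (a : ℕ → ℕ) : Prop :=
  StrictMono a ∧ (∀ k, (a k).Prime) ∧ ∀ k, a (k + 1) ≡ 1 [MOD a k]

theorem om_good {X : ℕ} (h8 : ∀ i, 8 * MM X i ≤ MM X (i + 1))
    (hbig' : ∀ i, 100 ≤ √(log (MM X i : ℝ)))
    (hg : ∀ k, log (MM X k) + 31 * √(log (MM X k)) ≤ 2 ^ k * (log X + 31 * √(log X)))
    {q : ℕ} (hq : q ∈ om (MM X) 0) :
    ∃ a : ℕ → ℕ, IsChain a ∧ a 0 = q ∧
      (∀ k, (a (k + 1) : ℝ) ≤ (a k : ℝ) ^ 2 * exp (9 * √(log (a k)))) ∧
      ∀ k, (a k : ℝ) ≤ exp (2 ^ k * (log q + 32 * √(log q))) := by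
  classical
  have hbig : 100 ≤ √(log (X : ℝ)) := hbig' 0
  obtain ⟨a, h1, h2, h3, h4, h5⟩ := om_chain (MM X) h8 q hq
  have hqX : X < q := (mem_Ioc.1 (mem_filter.1 (mem_filter.1 hq).1).1).1
  have hMk : ∀ k, (0 : ℝ) < MM X k := by
    intro k
    have h7 := (h5 k).2
    have h8 := (h3 k).pos
    exact_mod_cast (by omega : 0 < MM X k)
  refine ⟨a, ⟨h2, h3, h4⟩, h1, fun k => ?_, fun k => ?_⟩
  · have e1 : MM X (k + 1) = nxt (MM X k) := rfl
    have h6 := (h5 (k + 1)).2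
    rw [e1] at h6
    have h7 := (h5 k).1
    have hb := hbig' k
    have hM0 := hMk k
    set R := MM X k with hR
    have hak : (R : ℝ) ≤ a k := by exact_mod_cast h7.le
    have hak0 : (0 : ℝ) < a k := lt_of_lt_of_le hM0 hak
    have hsq : √(log (R : ℝ)) ≤ √(log (a k)) := sqrt_le_sqrt (log_le_log hM0 hak)
    have hgl := gg_le R
    set y := √(log (R : ℝ)) with hy
    calc (a (k + 1) : ℝ) ≤ ((8 * nxt R : ℕ) : ℝ) := by exact_mod_cast h6
      _ = 8 * ((R : ℝ) ^ 2 * (gg R : ℝ) ^ 8) := by push_cast; rw [nxt_cast]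
      _ ≤ 8 * ((R : ℝ) ^ 2 * (2 * exp y) ^ 8) := by gcongr
      _ = (R : ℝ) ^ 2 * (2048 * exp (8 * y)) := by
          rw [mul_pow, ← exp_nat_mul]
          norm_num
          ring
      _ ≤ (R : ℝ) ^ 2 * (exp y * exp (8 * y)) := by
          have h9 : (2048 : ℝ) ≤ exp y := by
            have h10 : (2 : ℝ) ≤ exp 1 := by linarith [exp_one_gt_d9]
            calc (2048 : ℝ) ≤ 2 ^ 20 := by norm_num
              _ ≤ (exp 1) ^ 20 := pow_le_pow_left₀ (by norm_num) h10 20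
              _ = exp 20 := by rw [← exp_nat_mul]; norm_num
              _ ≤ exp y := exp_le_exp.2 (by linarith)
          gcongr
      _ = (R : ℝ) ^ 2 * exp (9 * y) := by
          rw [← exp_add]
          congr 2
          ring
      _ ≤ (a k : ℝ) ^ 2 * exp (9 * √(log (a k))) := by
          gcongr
  · have hlogX : 1 ≤ log (X : ℝ) := by
      by_contra h
      rw [not_le] at h
      have h6 : √(log (X : ℝ)) ≤ 1 := by
        refine sqrt_le_iff.2 ⟨zero_le_one, ?_⟩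
        linarith
      linarith
    have hX0 : (0 : ℝ) < X := hMk 0
    have hlq : log (X : ℝ) ≤ log q := log_le_log hX0 (by exact_mod_cast hqX.le)
    have hsq : √(log (X : ℝ)) ≤ √(log q) := sqrt_le_sqrt hlq
    have hak : (0 : ℝ) < a k := by exact_mod_cast (h3 k).pos
    rw [← log_le_iff_le_exp hak]
    have h6 : log (a k : ℝ) ≤ log 8 + log (MM X k) := by
      rw [← log_mul (by norm_num) (hMk k).ne']
      refine log_le_log hak ?_
      exact_mod_cast (h5 k).2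
    have h7 := hg k
    have h8 : 0 ≤ √(log (MM X k : ℝ)) := sqrt_nonneg _
    have h9 : (1 : ℝ) ≤ 2 ^ k := one_le_pow₀ (by norm_num)
    have h10 := log_eight
    have h11 : 2 ^ k * (log (X : ℝ) + 31 * √(log X)) + 3 ≤
        2 ^ k * (log (q : ℝ) + 32 * √(log q)) := by
      have h12 : log (X : ℝ) + 31 * √(log X) + 3 ≤ log (q : ℝ) + 32 * √(log q) := by linarith
      nlinarith
    linarith

/-- the primes in `(X, 8X]` which start no slowly growing chain are few -/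
theorem chain_main : ∃ X₀ : ℕ, ∀ X : ℕ, X₀ ≤ X → ∃ B : Finset ℕ,
    (B.card : ℝ) ≤ X * exp (-√(log X) / 2) ∧
    (∀ q : ℕ, X < q → q ≤ 8 * X → q.Prime → q ∉ B → ∃ a : ℕ → ℕ, IsChain a ∧ a 0 = q ∧
      (∀ k, (a (k + 1) : ℝ) ≤ (a k : ℝ) ^ 2 * exp (9 * √(log (a k)))) ∧
      ∀ k, (a k : ℝ) ≤ exp (2 ^ k * (log q + 32 * √(log q)))) ∧
    ∃ q : ℕ, X < q ∧ q ≤ 8 * X ∧ q.Prime ∧ q ∉ B := by
  classical
  obtain ⟨X₀, hX₀⟩ := main_scales
  refine ⟨X₀, fun X hX => ?_⟩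
  obtain ⟨h1, h2, h3, h4, h5⟩ := hX₀ X hX
  refine ⟨win X \ om (MM X) 0, h1, fun q hq1 hq2 hq3 hq4 => ?_, ?_⟩
  · have hqw : q ∈ win X := mem_filter.2 ⟨mem_Ioc.2 ⟨hq1, hq2⟩, hq3⟩
    have hqo : q ∈ om (MM X) 0 := by
      by_contra h
      exact hq4 (mem_sdiff.2 ⟨hqw, h⟩)
    exact om_good h3 h4 h5 hqo
  · have h6 : ((win X \ om (MM X) 0).card : ℝ) < (win X).card := lt_of_le_of_lt h1 h2
    have h7 : (win X \ om (MM X) 0).card < (win X).card := by exact_mod_cast h6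
    obtain ⟨q, hq, hq'⟩ := exists_mem_notMem_of_card_lt_card h7
    obtain ⟨h8, h9⟩ := mem_filter.1 hq
    exact ⟨q, (mem_Ioc.1 h8).1, (mem_Ioc.1 h8).2, h9, hq'⟩

end Pool.Agent.BVX
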